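import Pool.Agent.HypSemi.Final

open scoped NNReal

namespace Pool.Agent.Results.MP_84e5ad_an.OrbitIndep

/-- **Orbits of hypercyclic vectors of strongly continuous semigroups are linearly independent.**

`𝕜` is the field of real or of complex numbers, `X` an infinite-dimensional Banach space over `𝕜`
(separability is automatic from the hypercyclicity of `z`), `T` a strongly continuous semigroup of
bounded operators on `X` (`T 0 = id`, `T (s + t) = T s ∘ T t`, every orbit map `t ↦ T t x` is
continuous), and `z` a hypercyclic vector (its orbit `{T t z : t ≥ 0}` is dense in `X`).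
Then the family `(T t z)_{t ≥ 0}` is linearly independent: a finite linear combination
`∑ c_i T_{t_i} z` with distinct times `t_i` vanishes only if all `c_i` vanish.  In particular
`t ↦ T t z` is injective and the orbit is a linearly independent subset of `X`. -/
theorem result {𝕜 : Type*} [RCLike 𝕜] {X : Type*} [NormedAddCommGroup X] [NormedSpace 𝕜 X]
    [CompleteSpace X] (hdim : ¬ FiniteDimensional 𝕜 X)
    (T : ℝ≥0 → X →L[𝕜] X)
    (hT0 : T 0 = ContinuousLinearMap.id 𝕜 X)
    (hTadd : ∀ s t : ℝ≥0, T (s + t) = (T s).comp (T t))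
    (hTcont : ∀ x : X, Continuous fun t : ℝ≥0 => T t x)
    (z : X) (hz : Dense (Set.range fun t : ℝ≥0 => T t z)) :
    LinearIndependent 𝕜 (fun t : ℝ≥0 => T t z) := by
  letI : NormedSpace ℝ X := NormedSpace.restrictScalars ℝ 𝕜 X
  haveI : IsScalarTower ℝ 𝕜 X := IsScalarTower.of_algebraMap_smul fun r x => rfl
  exact Pool.Agent.HypSemi.main_aux hdim T hT0 hTadd hTcont z hz

end Pool.Agent.Results.MP_84e5ad_an.OrbitIndep
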